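import Pool.Agent.H96.BD.TRV

/-!
# Basic facts on `cv`, `AA`, `RR` (board `bdc_modules`), modules RRD, STA, SPL
-/

set_option autoImplicit false

open MeasureTheory
open scoped ENNReal NNReal

namespace Pool.Agent.H96.BD

open Pool.Agent.H93.BD

lemma meas_gw (m N : ℕ) (r1 r2 : ℝ) (c : E m) : Measurable (gw m N r1 r2 c) := by
  unfold gw
  fun_prop

lemma meas_kw (m : ℕ) (R : ℝ) : Measurable (kw m R) := meas_gw _ _ _ _ _

lemma cv_mono {m : ℕ} {u u' k k' : X m → ℝ≥0∞} (hu : ∀ x, u x ≤ u' x) (hk : ∀ x, k x ≤ k' x)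
    (x : X m) : cv u k x ≤ cv u' k' x := by
  unfold cv
  exact lintegral_mono fun z => mul_le_mul' (hu z) (hk _)

lemma cv_const_mul {m : ℕ} (c : ℝ≥0∞) (hc : c ≠ ∞) (u k : X m → ℝ≥0∞) (x : X m) :
    cv (fun z => c * u z) k x = c * cv u k x := by
  unfold cv
  rw [← lintegral_const_mul' _ _ hc]
  refine lintegral_congr fun z => ?_
  ring

lemma cv_const_mul_right {m : ℕ} (c : ℝ≥0∞) (hc : c ≠ ∞) (u k : X m → ℝ≥0∞) (x : X m) :
    cv u (fun z => c * k z) x = c * cv u k x := by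
  unfold cv
  rw [← lintegral_const_mul' _ _ hc]
  refine lintegral_congr fun z => ?_
  ring

lemma cv_sum {m : ℕ} {ι : Type} (s : Finset ι) (u : ι → X m → ℝ≥0∞) (k : X m → ℝ≥0∞)
    (hu : ∀ i ∈ s, Measurable (u i)) (hk : Measurable k) (x : X m) :
    cv (fun z => ∑ i ∈ s, u i z) k x = ∑ i ∈ s, cv (u i) k x := by
  unfold cv
  simp only [Finset.sum_mul]
  rw [lintegral_finsetSum']
  intro i hi
  exact ((hu i hi).mul (hk.comp (by fun_prop))).aemeasurable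

lemma meas_cv {m : ℕ} {u k : X m → ℝ≥0∞} (hu : Measurable u) (hk : Measurable k) :
    Measurable (cv u k) := by
  unfold cv
  refine Measurable.lintegral_prod_right' (f := fun y : X m × X m => u y.2 * k (y.1 - y.2)) ?_
  exact (hu.comp measurable_snd).mul (hk.comp (by fun_prop))

lemma meas_f {m : ℕ} {f : X m → ℂ} (hf : Continuous f) (q : ℝ) :
    Measurable fun z => ‖f z‖ₑ ^ q := by
  have := hf.measurable
  fun_prop

lemma cont_fF {m : ℕ} {C0 : ℝ} {a : ℕ} {g : (Fin m → ℤ) → X m → ℂ} (hg : Cls m C0 a g) (b : ℕ)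
    (α : Fin m → ℤ) : Continuous (fF a b g α) := by
  unfold fF
  refine continuous_finsetSum _ fun κ hκ => ?_
  exact (pf_FCT m (g κ) (hg κ (mem_sub.mp hκ).1).int).1

/-- square of a finite sum -/
lemma sq_sum_le {ι : Type} (s : Finset ι) (u : ι → ℝ≥0∞) :
    (∑ i ∈ s, u i) ^ (2 : ℝ) ≤ (s.card : ℝ≥0∞) * ∑ i ∈ s, u i ^ (2 : ℝ) := by
  refine (ENNReal.rpow_le_rpow (sum_le_l2 s u) (by norm_num)).trans (le_of_eq ?_)
  unfold l2
  rw [ENNReal.mul_rpow_of_nonneg _ _ (by norm_num), ← ENNReal.rpow_mul, ← ENNReal.rpow_mul]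
  norm_num

lemma norm_sq_sum_le {ι : Type} (s : Finset ι) (f : ι → ℂ) :
    ‖∑ i ∈ s, f i‖ₑ ^ (2 : ℝ) ≤ (s.card : ℝ≥0∞) * ∑ i ∈ s, ‖f i‖ₑ ^ (2 : ℝ) :=
  (ENNReal.rpow_le_rpow (enorm_sum_le _ _) (by norm_num)).trans (sq_sum_le _ _)

/-- power of a finite sum -/
lemma rpow_sum_le {ι : Type} (s : Finset ι) (u : ι → ℝ≥0∞) {γ : ℝ} (hγ : 0 < γ) :
    (∑ i ∈ s, u i) ^ γ ≤ (s.card : ℝ≥0∞) ^ γ * ∑ i ∈ s, u i ^ γ := by
  rcases s.eq_empty_or_nonempty with h | h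
  · subst h
    simp [ENNReal.zero_rpow_of_pos hγ]
  · obtain ⟨j, hj, hmax⟩ := Finset.exists_max_image s u h
    have h1 : ∑ i ∈ s, u i ≤ (s.card : ℝ≥0∞) * u j := by
      have := Finset.sum_le_card_nsmul s u (u j) hmax
      rwa [nsmul_eq_mul] at this
    refine (ENNReal.rpow_le_rpow h1 hγ.le).trans ?_
    rw [ENNReal.mul_rpow_of_nonneg _ _ hγ.le]
    refine mul_le_mul' le_rfl ?_
    exact Finset.single_le_sum (f := fun i => u i ^ γ) (fun _ _ => zero_le) hj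

/-- constants in products over the `m + 1` factors -/
lemma prod_const_le {m : ℕ} (c : ℝ≥0∞) (γ : ℝ) (hγ : 0 ≤ γ) (A B : Fin (m + 1) → ℝ≥0∞)
    (h : ∀ i, A i ≤ c * B i) :
    ∏ i, A i ^ γ ≤ c ^ (γ * (m + 1)) * ∏ i, B i ^ γ := by
  calc ∏ i, A i ^ γ ≤ ∏ i, (c ^ γ * B i ^ γ) := by
        refine Finset.prod_le_prod' fun i _ => ?_
        rw [← ENNReal.mul_rpow_of_nonneg _ _ hγ]
        exact ENNReal.rpow_le_rpow (h i) hγ
    _ = c ^ (γ * (m + 1)) * ∏ i, B i ^ γ := by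
        rw [Finset.prod_mul_distrib, Finset.prod_const, Finset.card_univ, Fintype.card_fin,
          ← ENNReal.rpow_natCast, ← ENNReal.rpow_mul]
        push_cast
        rfl

lemma gam_mul {m : ℕ} (p : ℝ) : p / (2 * ((m : ℝ) + 1)) * (m + 1) = p / 2 := by
  have : (m : ℝ) + 1 ≠ 0 := by positivity
  field_simp

/-! ### RRD -/

theorem pf_RRD (hRES : T_RES) : T_RRD := by
  intro m p C0 hp hC0 a b l hlb hba D hD g hg τ
  have hp0 : 0 < p := by linarith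
  unfold RR
  have h1 : ∀ i : Fin (m + 1), ∑ α ∈ sub m b l (τ i), nrm p (fF a b g α) ^ (2 : ℝ) ≤
      D ^ (2 : ℝ) * ∑ κ ∈ sub m a l (τ i), nrm p (FI (g κ)) ^ (2 : ℝ) := by
    intro i
    rw [sum_sub hlb hba, Finset.mul_sum]
    refine Finset.sum_le_sum fun α hα => ?_
    have h2 := hRES m p C0 hp0 a b hba D hD g hg α (mem_sub.mp hα).1
    refine (ENNReal.rpow_le_rpow h2 (by norm_num)).trans (le_of_eq ?_)
    rw [ENNReal.mul_rpow_of_nonneg _ _ (by norm_num)]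
    unfold l2
    rw [← ENNReal.rpow_mul]
    norm_num
  have h3 := prod_const_le (D ^ (2 : ℝ)) (p / (2 * ((m : ℝ) + 1))) (by positivity) _ _ h1
  rw [gam_mul, ← ENNReal.rpow_mul] at h3
  have e : (2 : ℝ) * (p / 2) = p := by ring
  rw [e] at h3
  exact h3

/-! ### STA -/

lemma kw_le {m b : ℕ} {R : ℝ} (h1 : 1 ≤ R) (h2 : R ≤ 2 ^ b) (x : X m) :
    kw m R x ≤ ENNReal.ofReal (2 ^ (b * (m + 1))) * kw m (2 ^ b) x := by
  unfold kw gw
  rw [← ENNReal.ofReal_mul (by positivity)]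
  refine ENNReal.ofReal_le_ofReal ?_
  have hR0 : 0 < R := by linarith
  have hb0 : (0 : ℝ) < 2 ^ b := by positivity
  have e1 : (R ^ m * R)⁻¹ ≤ 1 := by
    refine inv_le_one_of_one_le₀ ?_
    nlinarith [one_le_pow₀ h1 (n := m)]
  have e2 : (2 : ℝ) ^ (b * (m + 1)) * ((2 ^ b) ^ m * 2 ^ b)⁻¹ = 1 := by
    rw [pow_mul, pow_succ]
    exact mul_inv_cancel₀ (by positivity)
  have e3 : ∀ t : ℝ, 0 ≤ t → ((1 + t / R) ^ (m + 2))⁻¹ ≤ ((1 + t / 2 ^ b) ^ (m + 2))⁻¹ := by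
    intro t ht
    refine inv_anti₀ (by positivity) (pow_le_pow_left₀ (by positivity) ?_ _)
    have := div_le_div_of_nonneg_left ht hR0 h2
    linarith
  have e4 : (2 : ℝ) ^ (b * (m + 1)) * (((2 ^ b) ^ m * 2 ^ b)⁻¹ *
      ((1 + ‖x.1 + (2 * x.2) • (0 : E m)‖ / 2 ^ b) ^ (m + 2))⁻¹ *
      ((1 + |x.2| / 2 ^ b) ^ (m + 2))⁻¹) =
      1 * ((1 + ‖x.1 + (2 * x.2) • (0 : E m)‖ / 2 ^ b) ^ (m + 2))⁻¹ *
      ((1 + |x.2| / 2 ^ b) ^ (m + 2))⁻¹ := by
    rw [← e2]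
    ring
  rw [e4]
  refine mul_le_mul (mul_le_mul e1 (e3 _ (norm_nonneg _)) (by positivity) (by norm_num))
    (e3 _ (abs_nonneg _)) (by positivity) (by positivity)

theorem pf_STA : T_STA := by
  intro m p C0 hp hC0 a b l hlb hba g hg τ R hR1 hR2
  have hp0 : 0 < p := by linarith
  unfold AA
  set K : ℝ≥0∞ := ENNReal.ofReal (2 ^ (m * b)) * ENNReal.ofReal (2 ^ (b * (m + 1))) with hK
  have hKtop : K ≠ ∞ := ENNReal.mul_ne_top ENNReal.ofReal_ne_top ENNReal.ofReal_ne_top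
  have hKp : K ^ (p / 2) ≤ ENNReal.ofReal (2 ^ ((m + 1) * p * b)) := by
    rw [hK, ← ENNReal.ofReal_mul (by positivity), ENNReal.ofReal_rpow_of_pos (by positivity)]
    refine ENNReal.ofReal_le_ofReal ?_
    rw [← pow_add, ← Real.rpow_natCast, ← Real.rpow_mul (by norm_num)]
    refine Real.rpow_le_rpow_of_exponent_le (by norm_num) ?_
    push_cast
    have hb : (0 : ℝ) ≤ b := Nat.cast_nonneg b
    nlinarith [mul_nonneg hp0.le hb]
  have h1 : ∀ (x : X m) (i : Fin (m + 1)),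
      (∑ α ∈ ({τ i} : Finset (Fin m → ℤ)),
        (cv (fun z => ‖fF a l g α z‖ₑ ^ (2 : ℝ)) (kw m R) x) ^ ((2 : ℝ) / 2)) ≤
      K * ∑ α ∈ sub m b l (τ i),
        (cv (fun z => ‖fF a b g α z‖ₑ ^ (2 : ℝ)) (kw m (2 ^ b)) x) ^ ((2 : ℝ) / 2) := by
    intro x i
    simp only [Finset.sum_singleton, div_self (two_ne_zero' ℝ), ENNReal.rpow_one]
    have h2 : ∀ z, ‖fF a l g (τ i) z‖ₑ ^ (2 : ℝ) ≤ ENNReal.ofReal (2 ^ (m * b)) *
        ∑ α ∈ sub m b l (τ i), ‖fF a b g α z‖ₑ ^ (2 : ℝ) := by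
      intro z
      rw [(pf_SUB m a b l hlb hba).1 g (τ i) z]
      refine (norm_sq_sum_le _ _).trans (mul_le_mul' ?_ le_rfl)
      have h3 := (card_sub (m := m) (b := b) (l := l) (τ i)).trans
        (Nat.pow_le_pow_right (by norm_num) (Nat.mul_le_mul_left m (Nat.sub_le b l)))
      have h4 : ((sub m b l (τ i)).card : ℝ≥0∞) ≤ ((2 ^ (m * b) : ℕ) : ℝ≥0∞) := by
        exact_mod_cast h3
      refine h4.trans (le_of_eq ?_)
      rw [← ENNReal.ofReal_natCast]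
      push_cast
      rfl
    calc cv (fun z => ‖fF a l g (τ i) z‖ₑ ^ (2 : ℝ)) (kw m R) x
        ≤ cv (fun z => ENNReal.ofReal (2 ^ (m * b)) *
          ∑ α ∈ sub m b l (τ i), ‖fF a b g α z‖ₑ ^ (2 : ℝ))
          (fun z => ENNReal.ofReal (2 ^ (b * (m + 1))) * kw m (2 ^ b) z) x :=
          cv_mono h2 (kw_le hR1 hR2) x
      _ = K * ∑ α ∈ sub m b l (τ i), cv (fun z => ‖fF a b g α z‖ₑ ^ (2 : ℝ)) (kw m (2 ^ b)) x := by
          rw [cv_const_mul _ ENNReal.ofReal_ne_top, cv_const_mul_right _ ENNReal.ofReal_ne_top,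
            cv_sum _ _ _ (fun α _ => meas_f (cont_fF hg b α) 2) (meas_kw m _), hK]
          ring
  calc ∫⁻ x, ∏ i : Fin (m + 1), (∑ α ∈ ({τ i} : Finset (Fin m → ℤ)),
        (cv (fun z => ‖fF a l g α z‖ₑ ^ (2 : ℝ)) (kw m R) x) ^ ((2 : ℝ) / 2)) ^
          (p / (2 * ((m : ℝ) + 1)))
      ≤ ∫⁻ x, K ^ (p / 2) * ∏ i : Fin (m + 1), (∑ α ∈ sub m b l (τ i),
        (cv (fun z => ‖fF a b g α z‖ₑ ^ (2 : ℝ)) (kw m (2 ^ b)) x) ^ ((2 : ℝ) / 2)) ^
          (p / (2 * ((m : ℝ) + 1))) := by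
        refine lintegral_mono fun x => ?_
        have h3 := prod_const_le K (p / (2 * ((m : ℝ) + 1))) (by positivity) _ _ (h1 x)
        rwa [gam_mul] at h3
    _ ≤ _ := by
        rw [lintegral_const_mul' _ _ (ENNReal.rpow_ne_top_of_nonneg (by positivity) hKtop)]
        exact mul_le_mul' hKp le_rfl

/-! ### SPL -/

theorem pf_SPL : T_SPL := by
  classical
  intro m p hp k l hkl
  set γ : ℝ := p / (2 * ((m : ℝ) + 1)) with hγ
  have hγ0 : 0 < γ := by positivity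
  -- the constants
  set n : ℝ≥0∞ := ((2 ^ (m * (l - k)) : ℕ) : ℝ≥0∞) with hn
  have hntop : n ≠ ∞ := ENNReal.natCast_ne_top _
  set K : ℝ≥0∞ := (n ^ γ * n ^ γ) ^ (m + 1) with hK
  have hKtop : K ≠ ∞ := ENNReal.pow_ne_top (ENNReal.mul_ne_top
    (ENNReal.rpow_ne_top_of_nonneg hγ0.le hntop) (ENNReal.rpow_ne_top_of_nonneg hγ0.le hntop))
  refine ⟨K.toReal, fun a hla C0 g hg τ R hR => ?_⟩
  rw [ENNReal.ofReal_toReal hKtop]
  unfold AA
  rw [← lintegral_finsetSum, ← lintegral_const_mul' _ _ hKtop]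
  · refine lintegral_mono fun x => ?_
    simp only [Finset.sum_singleton, div_self (two_ne_zero' ℝ), ENNReal.rpow_one]
    have h1 : ∀ i : Fin (m + 1), (cv (fun z => ‖fF a k g (τ i) z‖ₑ ^ (2 : ℝ)) (kw m R) x) ^ γ ≤
        (n ^ γ * n ^ γ) * ∑ α ∈ sub m l k (τ i),
          (cv (fun z => ‖fF a l g α z‖ₑ ^ (2 : ℝ)) (kw m R) x) ^ γ := by
      intro i
      have hcard : ((sub m l k (τ i)).card : ℝ≥0∞) ≤ n := by
        rw [hn]
        exact_mod_cast card_sub (m := m) (b := l) (l := k) (τ i)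
      have h2 : ∀ z, ‖fF a k g (τ i) z‖ₑ ^ (2 : ℝ) ≤ n *
          ∑ α ∈ sub m l k (τ i), ‖fF a l g α z‖ₑ ^ (2 : ℝ) := by
        intro z
        rw [(pf_SUB m a l k hkl hla).1 g (τ i) z]
        exact (norm_sq_sum_le _ _).trans (mul_le_mul' hcard le_rfl)
      calc (cv (fun z => ‖fF a k g (τ i) z‖ₑ ^ (2 : ℝ)) (kw m R) x) ^ γ
          ≤ (n * ∑ α ∈ sub m l k (τ i),
              cv (fun z => ‖fF a l g α z‖ₑ ^ (2 : ℝ)) (kw m R) x) ^ γ := by
            refine ENNReal.rpow_le_rpow ?_ hγ0.le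
            refine (cv_mono h2 (fun _ => le_rfl) x).trans (le_of_eq ?_)
            rw [cv_const_mul _ hntop,
              cv_sum _ _ _ (fun α _ => meas_f (cont_fF hg l α) 2) (meas_kw m _)]
        _ ≤ (n ^ γ * n ^ γ) * ∑ α ∈ sub m l k (τ i),
              (cv (fun z => ‖fF a l g α z‖ₑ ^ (2 : ℝ)) (kw m R) x) ^ γ := by
            rw [ENNReal.mul_rpow_of_nonneg _ _ hγ0.le, mul_assoc]
            refine mul_le_mul' le_rfl ?_
            refine (rpow_sum_le _ _ hγ0).trans (mul_le_mul' ?_ le_rfl)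
            exact ENNReal.rpow_le_rpow hcard hγ0.le
    refine (Finset.prod_le_prod' fun i _ => h1 i).trans (le_of_eq ?_)
    rw [Finset.prod_mul_distrib, Finset.prod_const, Finset.card_univ, Fintype.card_fin,
      Finset.prod_univ_sum]
  · intro τ' _
    refine Finset.measurable_prod _ fun i _ => ?_
    refine Measurable.pow_const ?_ _
    refine Finset.measurable_sum _ fun α _ => ?_
    refine Measurable.pow_const ?_ _
    exact meas_cv (meas_f (cont_fF hg l α) 2) (meas_kw m _)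

end Pool.Agent.H96.BD
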