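import Pool.Agent.H93.BD.Targets
import Pool.Agent.H93.BD.Targets2

/-!
# Modules FCT, SUB, GRD, CAP, TRV of the board `bdc_modules`
-/

set_option autoImplicit false

open MeasureTheory
open scoped ENNReal NNReal

namespace Pool.Agent.H96.BD

open Pool.Agent.H93.BD

/-! ### FCT -/

lemma norm_ph {m : ℕ} (z x : X m) : ‖ph z x‖ = 1 := by
  unfold ph
  exact Complex.norm_exp_ofReal_mul_I _

lemma cont_ph_right {m : ℕ} (z : X m) : Continuous fun x : X m => ph z x := by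
  unfold ph
  fun_prop

lemma cont_ph_left {m : ℕ} (x : X m) : Continuous fun z : X m => ph z x := by
  unfold ph
  fun_prop

theorem pf_FCT : T_FCT := by
  intro m g hg
  constructor
  · refine continuous_of_dominated (F := fun x z => g z * ph z x) (bound := fun z => ‖g z‖)
      ?_ ?_ hg.norm ?_
    · intro x
      exact hg.aestronglyMeasurable.mul (cont_ph_left x).aestronglyMeasurable
    · intro x
      refine Filter.Eventually.of_forall fun z => ?_
      rw [norm_mul, norm_ph, mul_one]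
    · refine Filter.Eventually.of_forall fun z => ?_
      exact continuous_const.mul (cont_ph_right z)
  · intro x
    refine (norm_integral_le_integral_norm _).trans (le_of_eq ?_)
    refine integral_congr_ae (Filter.Eventually.of_forall fun z => ?_)
    simp only
    rw [norm_mul, norm_ph, mul_one]

/-! ### grid -/

lemma mem_Bx {m a : ℕ} {κ : Fin m → ℤ} : κ ∈ Bx m a ↔ ∀ i, 0 ≤ κ i ∧ κ i < 2 ^ a := by
  unfold Bx
  rw [Fintype.mem_piFinset]
  simp only [Finset.mem_Ico]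

lemma mem_sub {m a b : ℕ} {κ α : Fin m → ℤ} :
    κ ∈ sub m a b α ↔ κ ∈ Bx m a ∧ ∀ i, κ i / 2 ^ (a - b) = α i := by
  unfold sub
  rw [Finset.mem_filter]

lemma pow_pos' (n : ℕ) : (0 : ℤ) < 2 ^ n := by positivity

lemma div_range {a b : ℕ} (hba : b ≤ a) {z : ℤ} (h0 : 0 ≤ z) (h1 : z < 2 ^ a) :
    0 ≤ z / 2 ^ (a - b) ∧ z / 2 ^ (a - b) < 2 ^ b := by
  constructor
  · exact Int.ediv_nonneg h0 (pow_pos' _).le
  · rw [Int.ediv_lt_iff_lt_mul (pow_pos' _), ← pow_add]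
    have : b + (a - b) = a := by omega
    rwa [this]

lemma div_div' {a b l : ℕ} (hlb : l ≤ b) (hba : b ≤ a) (z : ℤ) :
    z / 2 ^ (a - b) / 2 ^ (b - l) = z / 2 ^ (a - l) := by
  rw [Int.ediv_ediv_of_nonneg (pow_pos' _).le, ← pow_add]
  congr 2
  omega

lemma sum_sub {m a b l : ℕ} (hlb : l ≤ b) (hba : b ≤ a) {M : Type} [AddCommMonoid M]
    (v : (Fin m → ℤ) → M) (τ : Fin m → ℤ) :
    ∑ κ ∈ sub m a l τ, v κ = ∑ α ∈ sub m b l τ, ∑ κ ∈ sub m a b α, v κ := by
  classical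
  rw [← Finset.sum_fiberwise_of_maps_to (s := sub m a l τ) (t := sub m b l τ)
    (g := fun κ i => κ i / 2 ^ (a - b))]
  · refine Finset.sum_congr rfl fun α hα => ?_
    refine Finset.sum_congr ?_ fun _ _ => rfl
    ext κ
    rw [Finset.mem_filter, mem_sub, mem_sub, mem_Bx]
    rw [mem_sub, mem_Bx] at hα
    constructor
    · rintro ⟨⟨h1, _⟩, h3⟩
      exact ⟨h1, fun i => congrFun h3 i⟩
    · rintro ⟨h1, h2⟩
      refine ⟨⟨h1, fun i => ?_⟩, funext h2⟩
      rw [← div_div' hlb hba, h2 i]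
      exact hα.2 i
  · intro κ hκ
    rw [mem_sub, mem_Bx] at hκ ⊢
    refine ⟨fun i => div_range hba (hκ.1 i).1 (hκ.1 i).2, fun i => ?_⟩
    rw [div_div' hlb hba]
    exact hκ.2 i

lemma sum_Bx {m a b : ℕ} (hba : b ≤ a) {M : Type} [AddCommMonoid M]
    (v : (Fin m → ℤ) → M) :
    ∑ κ ∈ Bx m a, v κ = ∑ α ∈ Bx m b, ∑ κ ∈ sub m a b α, v κ := by
  classical
  rw [← Finset.sum_fiberwise_of_maps_to (s := Bx m a) (t := Bx m b)
    (g := fun κ i => κ i / 2 ^ (a - b))]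
  · refine Finset.sum_congr rfl fun α hα => ?_
    refine Finset.sum_congr ?_ fun _ _ => rfl
    ext κ
    rw [Finset.mem_filter, mem_sub]
    constructor
    · rintro ⟨h1, h3⟩
      exact ⟨h1, fun i => congrFun h3 i⟩
    · rintro ⟨h1, h2⟩
      exact ⟨h1, funext h2⟩
  · intro κ hκ
    rw [mem_Bx] at hκ ⊢
    exact fun i => div_range hba (hκ i).1 (hκ i).2

lemma card_sub {m b l : ℕ} (τ : Fin m → ℤ) : (sub m b l τ).card ≤ 2 ^ (m * (b - l)) := by
  classical
  have h1 : sub m b l τ ⊆ Fintype.piFinset fun i =>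
      Finset.Ico (τ i * 2 ^ (b - l)) (τ i * 2 ^ (b - l) + 2 ^ (b - l)) := by
    intro α hα
    rw [mem_sub] at hα
    rw [Fintype.mem_piFinset]
    intro i
    rw [Finset.mem_Ico, ← hα.2 i]
    have h2 := Int.emod_add_mul_ediv (α i) (2 ^ (b - l))
    have h3 := Int.emod_nonneg (α i) (pow_pos' (b - l)).ne'
    have h4 := Int.emod_lt_of_pos (α i) (pow_pos' (b - l))
    constructor
    · nlinarith
    · nlinarith
  refine (Finset.card_le_card h1).trans ?_
  rw [Fintype.card_piFinset]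
  simp only [Int.card_Ico, add_sub_cancel_left]
  rw [Finset.prod_const, Finset.card_univ, Fintype.card_fin, mul_comm, pow_mul]
  refine le_of_eq ?_
  congr 1

lemma norm_le_coord {m : ℕ} (x : E m) (c : ℝ) (hc : 0 ≤ c) (h : ∀ i, |x i| ≤ c) :
    ‖x‖ ≤ (m + 1) * c := by
  have h0 : 0 ≤ ((m : ℝ) + 1) * c := by positivity
  rw [← abs_of_nonneg h0, ← abs_norm, ← sq_le_sq, EuclideanSpace.norm_sq_eq]
  have h1 : ∑ i, ‖x i‖ ^ 2 ≤ ∑ _i : Fin m, c ^ 2 := by
    refine Finset.sum_le_sum fun i _ => ?_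
    rw [Real.norm_eq_abs]
    exact pow_le_pow_left₀ (abs_nonneg _) (h i) 2
  refine h1.trans ?_
  rw [Finset.sum_const, Finset.card_univ, Fintype.card_fin, nsmul_eq_mul, mul_pow]
  refine mul_le_mul_of_nonneg_right ?_ (sq_nonneg c)
  have : (0 : ℝ) ≤ m := Nat.cast_nonneg m
  nlinarith

lemma coord_le {m : ℕ} (x : E m) (i : Fin m) : |x i| ≤ ‖x‖ := by
  have := PiLp.norm_apply_le x i
  rwa [Real.norm_eq_abs] at this

lemma pt_apply {m : ℕ} (a : ℕ) (κ : Fin m → ℤ) (i : Fin m) : pt a κ i = (κ i : ℝ) / 2 ^ a := rfl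

lemma dist_sub {m b l : ℕ} (hlb : l ≤ b) {τ α : Fin m → ℤ} (hα : α ∈ sub m b l τ) :
    ‖pt b α - pt l τ‖ ≤ (m + 1) / 2 ^ l := by
  rw [mem_sub] at hα
  have h : ∀ i, |(pt b α - pt l τ) i| ≤ 1 / 2 ^ l := by
    intro i
    show |pt b α i - pt l τ i| ≤ 1 / 2 ^ l
    rw [pt_apply, pt_apply, ← hα.2 i]
    have h2 := Int.emod_add_mul_ediv (α i) (2 ^ (b - l))
    have h3 := Int.emod_nonneg (α i) (pow_pos' (b - l)).ne'
    have h4 := Int.emod_lt_of_pos (α i) (pow_pos' (b - l))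
    have h2' : ((α i % 2 ^ (b - l) : ℤ) : ℝ) + 2 ^ (b - l) * ((α i / 2 ^ (b - l) : ℤ) : ℝ) = α i := by
      exact_mod_cast h2
    have h3' : (0 : ℝ) ≤ ((α i % 2 ^ (b - l) : ℤ) : ℝ) := by exact_mod_cast h3
    have h4' : ((α i % 2 ^ (b - l) : ℤ) : ℝ) < 2 ^ (b - l) := by exact_mod_cast h4
    have hp : (2 : ℝ) ^ b = 2 ^ (b - l) * 2 ^ l := by
      rw [← pow_add]
      congr 1
      omega
    have hpos1 : (0 : ℝ) < 2 ^ (b - l) := by positivity
    have hpos2 : (0 : ℝ) < 2 ^ l := by positivity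
    have e : (α i : ℝ) / 2 ^ b - ((α i / 2 ^ (b - l) : ℤ) : ℝ) / 2 ^ l =
        ((α i % 2 ^ (b - l) : ℤ) : ℝ) / 2 ^ (b - l) / 2 ^ l := by
      rw [hp, ← h2']
      field_simp
      ring
    rw [e, abs_of_nonneg (by positivity)]
    refine div_le_div_of_nonneg_right ?_ hpos2.le
    rw [div_le_one hpos1]
    exact h4'.le
  have := norm_le_coord _ _ (by positivity) h
  refine this.trans (le_of_eq ?_)
  ring

lemma norm_pt {m b : ℕ} {α : Fin m → ℤ} (hα : α ∈ Bx m b) : ‖pt b α‖ ≤ m + 1 := by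
  rw [mem_Bx] at hα
  have h : ∀ i, |(pt b α) i| ≤ 1 := by
    intro i
    rw [pt_apply]
    have h1 : (0 : ℝ) ≤ α i := by exact_mod_cast (hα i).1
    have h2 : (α i : ℝ) ≤ 2 ^ b := by exact_mod_cast (hα i).2.le
    rw [abs_of_nonneg (by positivity), div_le_one (by positivity)]
    exact h2
  have := norm_le_coord _ _ (by positivity) h
  rwa [mul_one] at this

theorem pf_SUB : T_SUB := by
  intro m a b l hlb hba
  refine ⟨fun g τ x => ?_, fun M _ v τ => sum_sub hlb hba v τ, fun M _ v => sum_Bx hba v,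
    fun τ => card_sub τ, fun τ α hα => ⟨(mem_sub.mp hα).1, ?_, dist_sub hlb hα⟩,
    fun α hα => norm_pt hα⟩
  · unfold fF
    exact sum_sub hlb hba (fun κ => FI (g κ) x) τ
  · rw [mem_sub, mem_Bx] at hα
    rw [mem_Bx]
    intro i
    rw [← hα.2 i]
    exact div_range hlb (hα.1 i).1 (hα.1 i).2

theorem pf_GRD : T_GRD := by
  classical
  intro m r
  obtain ⟨R, hR⟩ := exists_nat_ge (|r| + 1)
  refine ⟨(2 * R + 1) ^ m, fun b ξ B hB => ?_⟩
  have h1 : B ⊆ Fintype.piFinset fun i =>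
      Finset.Icc (⌊(2 : ℝ) ^ b * ξ i⌋ - R) (⌊(2 : ℝ) ^ b * ξ i⌋ + R) := by
    intro κ hκ
    rw [Fintype.mem_piFinset]
    intro i
    have h2 : |ξ i - (κ i : ℝ) / 2 ^ b| ≤ r / 2 ^ b := (coord_le (ξ - pt b κ) i).trans (hB κ hκ)
    have hpos : (0 : ℝ) < 2 ^ b := by positivity
    have h3 : |(2 : ℝ) ^ b * ξ i - κ i| ≤ r := by
      have e : (2 : ℝ) ^ b * ξ i - κ i = 2 ^ b * (ξ i - (κ i : ℝ) / 2 ^ b) := by
        field_simp
      rw [e, abs_mul, abs_of_pos hpos]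
      calc 2 ^ b * |ξ i - (κ i : ℝ) / 2 ^ b| ≤ 2 ^ b * (r / 2 ^ b) :=
            mul_le_mul_of_nonneg_left h2 hpos.le
        _ = r := by field_simp
    have h4 := abs_le.mp (h3.trans (le_abs_self r))
    have h5 := Int.floor_le ((2 : ℝ) ^ b * ξ i)
    have h6 := Int.lt_floor_add_one ((2 : ℝ) ^ b * ξ i)
    rw [Finset.mem_Icc]
    constructor
    · have : ((⌊(2 : ℝ) ^ b * ξ i⌋ - R : ℤ) : ℝ) ≤ κ i := by
        push_cast
        linarith [h4.2]
      exact_mod_cast this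
    · have : (κ i : ℝ) ≤ ((⌊(2 : ℝ) ^ b * ξ i⌋ + R : ℤ) : ℝ) := by
        push_cast
        linarith [h4.1]
      exact_mod_cast this
  refine (Finset.card_le_card h1).trans ?_
  rw [Fintype.card_piFinset]
  have h2 : ∀ i : Fin m, (Finset.Icc (⌊(2 : ℝ) ^ b * ξ i⌋ - R) (⌊(2 : ℝ) ^ b * ξ i⌋ + R)).card =
      2 * R + 1 := by
    intro i
    rw [Int.card_Icc]
    omega
  simp only [h2]
  rw [Finset.prod_const, Finset.card_univ, Fintype.card_fin]

lemma FI_sum {m : ℕ} {ι : Type} (s : Finset ι) (g : ι → X m → ℂ)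
    (hg : ∀ i ∈ s, Integrable (g i)) (x : X m) :
    FI (fun z => ∑ i ∈ s, g i z) x = ∑ i ∈ s, FI (g i) x := by
  unfold FI
  rw [← integral_finsetSum]
  · refine integral_congr_ae (Filter.Eventually.of_forall fun z => ?_)
    simp only
    rw [Finset.sum_mul]
  · intro i hi
    refine (hg i hi).mul_bdd (c := 1) (cont_ph_left x).aestronglyMeasurable ?_
    exact Filter.Eventually.of_forall fun z => (norm_ph z x).le

theorem pf_CAP : T_CAP := by
  intro m C0 hC0 a b hba g hg α hα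
  refine ⟨fun z => ∑ κ ∈ sub m a b α, g κ z, ⟨?_, ?_⟩, ?_⟩
  · exact integrable_finsetSum _ fun κ hκ => (hg κ (mem_sub.mp hκ).1).int
  · intro z hz
    obtain ⟨κ, hκ, hκz⟩ := Finset.exists_ne_zero_of_sum_ne_zero hz
    have h1 := (hg κ (mem_sub.mp hκ).1).supp z hκz
    have h2 := dist_sub hba hκ
    have hab : (1 : ℝ) / 2 ^ a ≤ 1 / 2 ^ b :=
      one_div_le_one_div_of_le (by positivity) (pow_le_pow_right₀ (by norm_num) hba)
    have hab0 : (0 : ℝ) ≤ 1 / 2 ^ a := by positivity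
    have hm : (0 : ℝ) ≤ m := Nat.cast_nonneg m
    constructor
    · calc ‖z.1 - pt b α‖ = ‖(z.1 - pt a κ) + (pt a κ - pt b α)‖ := by rw [sub_add_sub_cancel]
        _ ≤ ‖z.1 - pt a κ‖ + ‖pt a κ - pt b α‖ := norm_add_le _ _
        _ ≤ C0 * (1 / 2 ^ a) + (m + 1) / 2 ^ b := add_le_add h1.1 h2
        _ ≤ C0 * (1 / 2 ^ b) + (m + 1) / 2 ^ b := by
            have := mul_le_mul_of_nonneg_left hab hC0
            linarith
        _ = (C0 + m + 1) * (1 / 2 ^ b) := by ring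
    · refine h1.2.trans ?_
      refine mul_le_mul (by linarith) (pow_le_pow_left₀ hab0 hab 2) (by positivity) (by positivity)
  · intro x
    unfold fF
    rw [FI_sum]
    intro κ hκ
    exact (hg κ (mem_sub.mp hκ).1).int

end Pool.Agent.H96.BD
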