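import Pool.Agent.H96.BD.Abase

/-!
# Modules HO1, TRL, END of the board `bdc_modules`
-/

set_option autoImplicit false

open MeasureTheory
open scoped ENNReal NNReal

namespace Pool.Agent.H96.BD

open Pool.Agent.H93.BD

instance instHaarX (m : ℕ) : (volume : Measure (X m)).IsAddHaarMeasure :=
  inferInstanceAs (((volume : Measure (E m)).prod (volume : Measure ℝ)).IsAddHaarMeasure)

instance instNegX (m : ℕ) : (volume : Measure (X m)).IsNegInvariant := inferInstance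

/-- Hoelder for averages with respect to a weight of bounded mass -/
lemma cv_sq_le {m : ℕ} {q : ℝ} (hq : 2 ≤ q) {f : X m → ℂ} (hf : Continuous f) {k : X m → ℝ≥0∞}
    (hk : Measurable k) {M : ℝ≥0∞} (hM : ∫⁻ z, k z ≤ M) (x : X m) :
    cv (fun z => ‖f z‖ₑ ^ (2 : ℝ)) k x ≤
      M ^ (1 - 2 / q) * (cv (fun z => ‖f z‖ₑ ^ q) k x) ^ (2 / q) := by
  have hq0 : 0 < q := by linarith
  set μ : Measure (X m) := volume.withDensity (fun z => k (x - z)) with hμ
  have hkx : Measurable fun z : X m => k (x - z) := hk.comp (by fun_prop)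
  have h1 : ∀ r : ℝ, ∫⁻ z, ‖f z‖ₑ ^ r ∂μ = cv (fun z => ‖f z‖ₑ ^ r) k x := by
    intro r
    rw [hμ, lintegral_withDensity_eq_lintegral_mul _ hkx (meas_f hf r)]
    unfold cv
    refine lintegral_congr fun z => ?_
    rw [Pi.mul_apply, mul_comm]
  have h2 : μ Set.univ ≤ M := by
    rw [hμ, withDensity_apply _ MeasurableSet.univ, Measure.restrict_univ,
      lintegral_sub_left_eq_self (fun z => k z) x]
    exact hM
  have h3 := eLpNorm'_le_eLpNorm'_mul_rpow_measure_univ (μ := μ) (p := 2) (q := q) (by norm_num) hq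
    hf.aestronglyMeasurable
  unfold eLpNorm' at h3
  rw [h1 2, h1 q] at h3
  have h4 := ENNReal.rpow_le_rpow h3 (by norm_num : (0 : ℝ) ≤ 2)
  rw [ENNReal.mul_rpow_of_nonneg _ _ (by norm_num), ← ENNReal.rpow_mul, ← ENNReal.rpow_mul,
    ← ENNReal.rpow_mul] at h4
  have e1 : (1 : ℝ) / 2 * 2 = 1 := by norm_num
  have e2 : 1 / q * 2 = 2 / q := by ring
  have e3 : (1 / 2 - 1 / q) * 2 = 1 - 2 / q := by ring
  rw [e1, e2, e3, ENNReal.rpow_one] at h4
  refine h4.trans ?_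
  rw [mul_comm]
  refine mul_le_mul' (ENNReal.rpow_le_rpow h2 ?_) le_rfl
  rw [sub_nonneg, div_le_one hq0]
  exact hq

theorem pf_HO1 (hWM : T_WM) : T_HO1 := by
  intro m p q hp hq
  obtain ⟨C, hC⟩ := hWM m (m + 2) le_rfl
  set M : ℝ≥0∞ := ENNReal.ofReal C with hM
  have hMtop : M ≠ ∞ := ENNReal.ofReal_ne_top
  have hq0 : 0 < q := by linarith
  have he : 0 ≤ 1 - 2 / q := by
    rw [sub_nonneg, div_le_one hq0]
    exact hq
  have hK1 : M ^ (1 - 2 / q) ≠ ∞ := ENNReal.rpow_ne_top_of_nonneg he hMtop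
  have hK : (M ^ (1 - 2 / q)) ^ (p / 2) ≠ ∞ := ENNReal.rpow_ne_top_of_nonneg (by positivity) hK1
  refine ⟨((M ^ (1 - 2 / q)) ^ (p / 2)).toReal, fun R hR I f hf => ?_⟩
  rw [ENNReal.ofReal_toReal hK]
  unfold AA
  rw [← lintegral_const_mul' _ _ hK]
  refine lintegral_mono fun x => ?_
  have h1 : ∀ i : Fin (m + 1), (∑ α ∈ I i,
        (cv (fun z => ‖f α z‖ₑ ^ (2 : ℝ)) (kw m R) x) ^ ((2 : ℝ) / 2)) ≤
      M ^ (1 - 2 / q) * ∑ α ∈ I i, (cv (fun z => ‖f α z‖ₑ ^ q) (kw m R) x) ^ (2 / q) := by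
    intro i
    rw [Finset.mul_sum]
    refine Finset.sum_le_sum fun α hα => ?_
    rw [div_self (two_ne_zero' ℝ), ENNReal.rpow_one]
    exact cv_sq_le hq (hf i α hα) (meas_kw m R) (hC R R hR hR 0) x
  have h3 := prod_const_le (M ^ (1 - 2 / q)) (p / (2 * ((m : ℝ) + 1))) (by positivity) _ _ h1
  rwa [gam_mul] at h3

/-- Minkowski in `L^(p/2)` for sums of powers `2/p` -/
lemma minkowski_pow {m : ℕ} {ι : Type} (s : Finset ι) (F : ι → X m → ℝ≥0∞)
    (hF : ∀ i ∈ s, Measurable (F i)) {p : ℝ} (hp : 2 ≤ p) :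
    ∫⁻ x, (∑ i ∈ s, F i x ^ (2 / p)) ^ (p / 2) ≤ (∑ i ∈ s, (∫⁻ x, F i x) ^ (2 / p)) ^ (p / 2) := by
  have hp0 : 0 < p := by linarith
  have h := eLpNorm'_sum_le (μ := (volume : Measure (X m))) (f := fun i x => F i x ^ (2 / p))
    (s := s) (q := p / 2) (fun i hi => ((hF i hi).pow_const _).aestronglyMeasurable)
    (by linarith)
  unfold eLpNorm' at h
  have e1 : 1 / (p / 2) = 2 / p := by
    rw [one_div, inv_div]
  have e2 : 2 / p * (p / 2) = 1 := by field_simp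
  simp only [e1, enorm_eq_self, Finset.sum_apply, ← ENNReal.rpow_mul, e2, ENNReal.rpow_one] at h
  have h4 := ENNReal.rpow_le_rpow h (by positivity : (0 : ℝ) ≤ p / 2)
  rw [← ENNReal.rpow_mul, e2, ENNReal.rpow_one] at h4
  exact h4

lemma nrm_rpow {m : ℕ} {p : ℝ} (hp : 0 < p) (f : X m → ℂ) : nrm p f ^ p = ∫⁻ x, ‖f x‖ₑ ^ p := by
  unfold nrm
  rw [← ENNReal.rpow_mul]
  have : 1 / p * p = 1 := by field_simp
  rw [this, ENNReal.rpow_one]

lemma lint_cv {m : ℕ} {u k : X m → ℝ≥0∞} (hu : Measurable u) (hk : Measurable k) :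
    ∫⁻ x, cv u k x = (∫⁻ x, u x) * ∫⁻ x, k x := by
  unfold cv
  rw [lintegral_lintegral_swap]
  · rw [← lintegral_mul_const _ hu]
    refine lintegral_congr fun z => ?_
    have hkz : Measurable fun x : X m => k (x - z) := hk.comp (by fun_prop)
    rw [lintegral_const_mul _ hkz]
    congr 1
    exact lintegral_sub_right_eq_self (fun x => k x) z
  · exact ((hu.comp measurable_snd).mul (hk.comp (by fun_prop))).aemeasurable

theorem pf_TRL (hWM : T_WM) : T_TRL := by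
  intro m p hp
  obtain ⟨C, hC⟩ := hWM m (m + 2) le_rfl
  have hp0 : 0 < p := by linarith
  refine ⟨C, fun R hR I f hf => ?_⟩
  set M : ℝ≥0∞ := ENNReal.ofReal C with hM
  have hm1 : (m : ℝ) + 1 ≠ 0 := by positivity
  have e0 : p / (2 * ((m : ℝ) + 1)) = p / 2 * (1 / ((m : ℝ) + 1)) := by field_simp
  unfold AA RR
  rw [e0]
  simp only [ENNReal.rpow_mul]
  have hmeas : ∀ i : Fin (m + 1), ∀ α ∈ I i, Measurable (cv (fun z => ‖f α z‖ₑ ^ p) (kw m R)) :=
    fun i α hα => meas_cv (meas_f (hf i α hα) p) (meas_kw m R)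
  have h1 := ENNReal.lintegral_prod_norm_pow_le (μ := (volume : Measure (X m)))
    (Finset.univ : Finset (Fin (m + 1)))
    (f := fun i x => (∑ α ∈ I i, (cv (fun z => ‖f α z‖ₑ ^ p) (kw m R) x) ^ (2 / p)) ^ (p / 2))
    (fun i _ => ((Finset.measurable_sum _ fun α hα =>
      (hmeas i α hα).pow_const _).pow_const _).aemeasurable)
    (p := fun _ => 1 / ((m : ℝ) + 1))
    (by
      rw [Finset.sum_const, Finset.card_univ, Fintype.card_fin, nsmul_eq_mul]
      push_cast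
      field_simp)
    (fun _ _ => by positivity)
  refine h1.trans ?_
  have h2 : ∀ i : Fin (m + 1),
      ∫⁻ x, (∑ α ∈ I i, (cv (fun z => ‖f α z‖ₑ ^ p) (kw m R) x) ^ (2 / p)) ^ (p / 2) ≤
      M * (∑ α ∈ I i, nrm p (f α) ^ (2 : ℝ)) ^ (p / 2) := by
    intro i
    refine (minkowski_pow (I i) _ (hmeas i) hp).trans ?_
    have h3 : ∑ α ∈ I i, (∫⁻ x, cv (fun z => ‖f α z‖ₑ ^ p) (kw m R) x) ^ (2 / p) ≤
        M ^ (2 / p) * ∑ α ∈ I i, nrm p (f α) ^ (2 : ℝ) := by
      rw [Finset.mul_sum]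
      refine Finset.sum_le_sum fun α hα => ?_
      rw [lint_cv (meas_f (hf i α hα) p) (meas_kw m R), ← nrm_rpow hp0, mul_comm,
        ENNReal.mul_rpow_of_nonneg _ _ (by positivity), ← ENNReal.rpow_mul]
      have e2 : p * (2 / p) = 2 := by field_simp
      rw [e2]
      refine mul_le_mul' (ENNReal.rpow_le_rpow (hC R R hR hR 0) (by positivity)) le_rfl
    refine (ENNReal.rpow_le_rpow h3 (by positivity)).trans (le_of_eq ?_)
    rw [ENNReal.mul_rpow_of_nonneg _ _ (by positivity), ← ENNReal.rpow_mul]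
    have e2 : 2 / p * (p / 2) = 1 := by field_simp
    rw [e2, ENNReal.rpow_one]
  have h4 := prod_const_le M (1 / ((m : ℝ) + 1)) (by positivity) _ _ h2
  have e3 : 1 / ((m : ℝ) + 1) * (m + 1) = 1 := by field_simp
  rw [e3, ENNReal.rpow_one] at h4
  exact h4

theorem pf_END (hHO1 : T_HO1) (hTRL : T_TRL) : T_END := by
  intro m p C0 hp hC0
  have hp0 : 0 < p := by linarith
  obtain ⟨C1, hC1⟩ := hHO1 m p p hp0 hp
  obtain ⟨C2, hC2⟩ := hTRL m p hp
  refine ⟨|C1| * |C2|, fun a b l hlb hba g hg τ => ?_⟩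
  have hR : (0 : ℝ) < 2 ^ b := by positivity
  have hcont : ∀ i : Fin (m + 1), ∀ α ∈ sub m b l (τ i), Continuous (fF a b g α) :=
    fun i α _ => cont_fF hg b α
  have h1 := hC1 (2 ^ b) hR (fun i => sub m b l (τ i)) (fF a b g) hcont
  have h2 := hC2 (2 ^ b) hR (fun i => sub m b l (τ i)) (fF a b g) hcont
  have hsum : ∀ i : Fin (m + 1), ∑ α ∈ sub m b l (τ i), nrm p (fF a b g α) ^ (2 : ℝ) ≤
      ((2 ^ (m * (a - b)) : ℕ) : ℝ≥0∞) *
        ∑ κ ∈ sub m a l (τ i), nrm p (FI (g κ)) ^ (2 : ℝ) := by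
    intro i
    rw [sum_sub hlb hba, Finset.mul_sum]
    refine Finset.sum_le_sum fun α hα => ?_
    have h3 : nrm p (fF a b g α) ≤ ∑ κ ∈ sub m a b α, nrm p (FI (g κ)) := by
      simp only [nrm_eq]
      have h := eLpNorm'_sum_le (μ := (volume : Measure (X m))) (f := fun κ => FI (g κ))
        (s := sub m a b α) (q := p) (fun κ hκ =>
          (pf_FCT m (g κ) (hg κ (mem_sub.mp hκ).1).int).1.aestronglyMeasurable) (by linarith)
      refine le_trans (le_of_eq ?_) h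
      congr 1
      funext x
      rw [Finset.sum_apply]
      rfl
    refine (ENNReal.rpow_le_rpow h3 (by norm_num)).trans ((sq_sum_le _ _).trans ?_)
    refine mul_le_mul' ?_ le_rfl
    exact_mod_cast card_sub (m := m) (b := a) (l := b) α
  have h4 := prod_const_le ((2 ^ (m * (a - b)) : ℕ) : ℝ≥0∞) (p / (2 * ((m : ℝ) + 1)))
    (by positivity) _ _ hsum
  rw [gam_mul] at h4
  have h5 : (((2 ^ (m * (a - b)) : ℕ) : ℝ≥0∞)) ^ (p / 2) ≤
      ENNReal.ofReal (2 ^ ((m : ℝ) * ((a : ℝ) - b) * p)) := by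
    rw [← ENNReal.ofReal_natCast, ENNReal.ofReal_rpow_of_pos (by positivity)]
    refine ENNReal.ofReal_le_ofReal ?_
    push_cast
    rw [← Real.rpow_natCast, ← Real.rpow_mul (by norm_num)]
    refine Real.rpow_le_rpow_of_exponent_le (by norm_num) ?_
    push_cast [Nat.cast_sub hba]
    have hab : (0 : ℝ) ≤ (a : ℝ) - b := by
      rw [sub_nonneg]
      exact_mod_cast hba
    have hm : (0 : ℝ) ≤ m := Nat.cast_nonneg m
    nlinarith [mul_nonneg (mul_nonneg hm hab) hp0.le]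
  have hle : ∀ C : ℝ, ENNReal.ofReal C ≤ ENNReal.ofReal |C| := fun C =>
    ENNReal.ofReal_le_ofReal (le_abs_self C)
  calc AA m p 2 (2 ^ b) (fun i => sub m b l (τ i)) (fF a b g)
      ≤ ENNReal.ofReal |C1| * (ENNReal.ofReal |C2| * RR m p (fun i => sub m b l (τ i))
          (fF a b g)) :=
        h1.trans (mul_le_mul' (hle C1) (h2.trans (mul_le_mul' (hle C2) le_rfl)))
    _ ≤ ENNReal.ofReal |C1| * (ENNReal.ofReal |C2| *
          (ENNReal.ofReal (2 ^ ((m : ℝ) * ((a : ℝ) - b) * p)) *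
            RR m p (fun i => sub m a l (τ i)) (fun κ => FI (g κ)))) := by
        refine mul_le_mul' le_rfl (mul_le_mul' le_rfl ?_)
        unfold RR
        exact h4.trans (mul_le_mul' h5 le_rfl)
    _ = _ := by
        rw [ENNReal.ofReal_mul (by positivity), ENNReal.ofReal_mul (by positivity)]
        ring

end Pool.Agent.H96.BD
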