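import Pool.Agent.H93.BD.Targets

/-!
# Modules LW, ONE, AVG, CHN of the board `bdc_modules`
-/

set_option autoImplicit false

open MeasureTheory
open scoped ENNReal NNReal

namespace Pool.Agent.H96.BD

open Pool.Agent.H93.BD

/-- Hoelder on a probability space -/
lemma prob_holder {α ι : Type} [MeasurableSpace α] (μ : Measure α) [IsProbabilityMeasure μ]
    (s : Finset ι) (f : ι → α → ℝ≥0∞) (hf : ∀ i ∈ s, Measurable (f i)) (γ : ℝ) (hγ : 0 ≤ γ)
    (hs : γ * s.card ≤ 1) :
    ∫⁻ a, ∏ i ∈ s, f i a ^ γ ∂μ ≤ ∏ i ∈ s, (∫⁻ a, f i a ∂μ) ^ γ := by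
  have h := ENNReal.lintegral_mul_prod_norm_pow_le (μ := μ) s (g := fun _ => (1 : ℝ≥0∞)) (f := f)
    aemeasurable_const (fun i hi => (hf i hi).aemeasurable) (1 - γ * s.card) (p := fun _ => γ)
    (by rw [Finset.sum_const, nsmul_eq_mul]; ring) (by linarith) (fun _ _ => hγ)
  simpa using h

section

variable {n : ℕ} (μ : Fin n → Measure ℝ) [∀ i, IsProbabilityMeasure (μ i)]

/-- Finner's inequality (Loomis-Whitney) for marginals -/
lemma marg_le (γ : ℝ) (hγ : 0 ≤ γ) (hn : γ * (n - 1) ≤ 1) (G : Fin n → (Fin n → ℝ) → ℝ≥0∞)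
    (hG : ∀ i, Measurable (G i)) (hGi : ∀ i s t, G i (Function.update s i t) = G i s)
    (S : Finset (Fin n)) (x : Fin n → ℝ) :
    (∫⋯∫⁻_S, (fun s => ∏ i, G i s ^ γ) ∂μ) x ≤ ∏ i, ((∫⋯∫⁻_S, G i ∂μ) x) ^ γ := by
  classical
  have hprod : Measurable fun s : Fin n → ℝ => ∏ i, G i s ^ γ :=
    Finset.measurable_prod _ fun i _ => (hG i).pow_const _
  induction S using Finset.induction_on generalizing x with
  | empty => simp
  | insert j S hj ih =>
    rw [lmarginal_insert _ hprod hj]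
    have hconst : ∀ t : ℝ, (∫⋯∫⁻_S, G j ∂μ) (Function.update x j t) = (∫⋯∫⁻_S, G j ∂μ) x := by
      intro t
      rw [lmarginal_update_of_notMem (hG j) hj]
      congr 1
      funext s
      exact hGi j s t
    have hinsert : ∀ i, (∫⋯∫⁻_insert j S, G i ∂μ) x =
        ∫⁻ t, (∫⋯∫⁻_S, G i ∂μ) (Function.update x j t) ∂μ j := fun i =>
      lmarginal_insert _ (hG i) hj x
    have hjj : (∫⋯∫⁻_insert j S, G j ∂μ) x = (∫⋯∫⁻_S, G j ∂μ) x := by
      rw [hinsert j]
      simp only [hconst]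
      rw [lintegral_const, measure_univ, mul_one]
    calc ∫⁻ t, (∫⋯∫⁻_S, (fun s => ∏ i, G i s ^ γ) ∂μ) (Function.update x j t) ∂μ j
        ≤ ∫⁻ t, ∏ i, ((∫⋯∫⁻_S, G i ∂μ) (Function.update x j t)) ^ γ ∂μ j :=
          lintegral_mono fun t => ih _
      _ = ∫⁻ t, ((∫⋯∫⁻_S, G j ∂μ) x) ^ γ *
            ∏ i ∈ Finset.univ.erase j, ((∫⋯∫⁻_S, G i ∂μ) (Function.update x j t)) ^ γ ∂μ j := by
          refine lintegral_congr fun t => ?_
          rw [← Finset.mul_prod_erase _ _ (Finset.mem_univ j), hconst]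
      _ = ((∫⋯∫⁻_S, G j ∂μ) x) ^ γ * ∫⁻ t,
            ∏ i ∈ Finset.univ.erase j, ((∫⋯∫⁻_S, G i ∂μ) (Function.update x j t)) ^ γ ∂μ j := by
          rw [lintegral_const_mul]
          refine Finset.measurable_prod _ fun i _ => ?_
          refine Measurable.pow_const ?_ _
          exact ((hG i).lmarginal μ).comp (measurable_update x)
      _ ≤ ((∫⋯∫⁻_S, G j ∂μ) x) ^ γ * ∏ i ∈ Finset.univ.erase j,
            (∫⁻ t, (∫⋯∫⁻_S, G i ∂μ) (Function.update x j t) ∂μ j) ^ γ := by
          refine mul_le_mul' le_rfl ?_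
          refine prob_holder (μ j) _ _ (fun i _ => ((hG i).lmarginal μ).comp (measurable_update x))
            γ hγ ?_
          rw [Finset.card_erase_of_mem (Finset.mem_univ j), Finset.card_univ, Fintype.card_fin]
          have hn1 : 1 ≤ n := by
            have := j.2
            omega
          push_cast [Nat.cast_sub hn1]
          exact hn
      _ = ∏ i, ((∫⋯∫⁻_insert j S, G i ∂μ) x) ^ γ := by
          rw [← Finset.mul_prod_erase _ _ (Finset.mem_univ j), hjj]
          simp only [hinsert]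

end

/-! ### The normalised measure on the cube -/

/-- normalised Lebesgue measure on `[-ρ, ρ]` -/
noncomputable def nu (ρ : ℝ) : Measure ℝ :=
  (ENNReal.ofReal (2 * ρ))⁻¹ • volume.restrict (Set.Icc (-ρ) ρ)

lemma nu_prob {ρ : ℝ} (hρ : 0 < ρ) : IsProbabilityMeasure (nu ρ) := by
  constructor
  unfold nu
  rw [Measure.smul_apply, Measure.restrict_apply_univ, Real.volume_Icc, smul_eq_mul]
  have e : ρ - -ρ = 2 * ρ := by ring
  rw [e]
  refine ENNReal.inv_mul_cancel ?_ ENNReal.ofReal_ne_top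
  have : 0 < ENNReal.ofReal (2 * ρ) := ENNReal.ofReal_pos.mpr (by linarith)
  exact this.ne'

lemma pi_nu (n : ℕ) {ρ : ℝ} (hρ : 0 < ρ) : Measure.pi (fun _ : Fin n => nu ρ) =
    (ENNReal.ofReal ((2 * ρ) ^ n))⁻¹ • volume.restrict (Qc n ρ) := by
  have := nu_prob hρ
  refine Measure.pi_eq fun s hs => ?_
  rw [Measure.smul_apply, Measure.restrict_apply (MeasurableSet.univ_pi hs)]
  have h1 : Set.univ.pi s ∩ Qc n ρ = Set.univ.pi fun i => s i ∩ Set.Icc (-ρ) ρ := by
    unfold Qc
    rw [← Set.pi_univ_Icc, ← Set.pi_inter_distrib]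
  rw [h1, volume_pi_pi]
  have h2 : ∀ i : Fin n, (nu ρ) (s i) =
      (ENNReal.ofReal (2 * ρ))⁻¹ * volume (s i ∩ Set.Icc (-ρ) ρ) := by
    intro i
    unfold nu
    rw [Measure.smul_apply, Measure.restrict_apply (hs i), smul_eq_mul]
  simp only [h2]
  rw [Finset.prod_mul_distrib, Finset.prod_const, Finset.card_univ, Fintype.card_fin,
    ENNReal.ofReal_pow (by linarith), ENNReal.inv_pow, smul_eq_mul]

lemma av_eq (n : ℕ) {ρ : ℝ} (hρ : 0 < ρ) (f : (Fin n → ℝ) → ℝ≥0∞) (s0 : Fin n → ℝ) :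
    av n ρ f s0 = ∫⁻ s, f (s0 + s) ∂Measure.pi (fun _ : Fin n => nu ρ) := by
  rw [pi_nu n hρ, lintegral_smul_measure]
  rfl

theorem pf_LW : T_LW := by
  intro n hn γ hγ hγn ρ hρ G hG hGi
  have := nu_prob hρ
  have h := marg_le (fun _ : Fin n => nu ρ) γ hγ.le hγn G hG hGi Finset.univ 0
  simp only [lmarginal_univ] at h
  rw [av_eq n hρ]
  simp only [av_eq n hρ, zero_add]
  exact h

/-! ### ONE -/

theorem pf_ONE : T_ONE := by
  classical
  intro n hn γ hγ hγn C hC ρ hρ V hV hVi s0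
  have hprob := nu_prob hρ
  have hC0 : 0 ≤ C := by linarith
  set μ : Fin n → Measure ℝ := fun _ => nu ρ with hμ
  set W : Fin n → (Fin n → ℝ) → ℝ≥0∞ := fun i s => V i (s0 + s) with hW
  have hWm : ∀ i, Measurable (W i) := fun i => (hV i).comp (measurable_const_add s0)
  set G : Fin n → (Fin n → ℝ) → ℝ≥0∞ := fun i => ∫⋯∫⁻_{i}, W i ∂μ with hG
  have hGm : ∀ i, Measurable (G i) := fun i => (hWm i).lmarginal μ
  have hGi : ∀ i s t, G i (Function.update s i t) = G i s := fun i s t =>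
    lmarginal_update_of_mem μ (Finset.mem_singleton_self i) _ _ _
  -- the averages of `G i` and `W i` agree
  have hint : ∀ i, ∫⁻ s, G i s ∂Measure.pi μ = ∫⁻ s, W i s ∂Measure.pi μ := by
    intro i
    refine lintegral_eq_of_lmarginal_eq {i} (hGm i) (hWm i) ?_
    rw [lmarginal_singleton]
    funext x
    simp only [hGi]
    rw [lintegral_const, measure_univ, mul_one]
  -- comparison on the cube
  have hle : ∀ s ∈ Qc n ρ, ∀ i, W i s ≤ ENNReal.ofReal C * G i s := by
    intro s hs i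
    have h1 : ∀ t ∈ Set.Icc (-ρ) ρ, W i s ≤ ENNReal.ofReal C * W i (Function.update s i t) := by
      intro t ht
      have h2 := hVi i (s0 + Function.update s i t) (s i - t) (by
        have h3 := hs.1 i
        have h4 := hs.2 i
        simp only at h3 h4
        rw [abs_le]
        constructor
        · linarith [ht.2]
        · linarith [ht.1])
      have h3 : s0 + Function.update s i t + Pi.single i (s i - t) = s0 + s := by
        funext j
        by_cases hj : j = i
        · subst hj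
          simp
        · simp [hj]
      rw [h3] at h2
      exact h2
    calc W i s = ∫⁻ _t, W i s ∂nu ρ := by rw [lintegral_const, measure_univ, mul_one]
      _ ≤ ∫⁻ t, ENNReal.ofReal C * W i (Function.update s i t) ∂nu ρ := by
          unfold nu
          rw [lintegral_smul_measure, lintegral_smul_measure]
          refine mul_le_mul' le_rfl ?_
          exact setLIntegral_mono' measurableSet_Icc h1
      _ = ENNReal.ofReal C * G i s := by
          rw [lintegral_const_mul]
          · simp only [hG, lmarginal_singleton]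
            rfl
          · exact (hWm i).comp (measurable_update s)
  rw [av_eq n hρ]
  simp only [av_eq n hρ]
  have h5 : ∫⁻ s, ∏ i, V i (s0 + s) ^ γ ∂Measure.pi μ ≤
      ∫⁻ s, ENNReal.ofReal (C ^ (n * γ)) * ∏ i, G i s ^ γ ∂Measure.pi μ := by
    rw [hμ, pi_nu n hρ, lintegral_smul_measure, lintegral_smul_measure]
    refine mul_le_mul' le_rfl (setLIntegral_mono' measurableSet_Icc fun s hs => ?_)
    calc ∏ i, V i (s0 + s) ^ γ ≤ ∏ i, (ENNReal.ofReal C ^ γ * G i s ^ γ) := by
          refine Finset.prod_le_prod' fun i _ => ?_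
          rw [← ENNReal.mul_rpow_of_nonneg _ _ hγ.le]
          exact ENNReal.rpow_le_rpow (hle s hs i) hγ.le
      _ = ENNReal.ofReal (C ^ (n * γ)) * ∏ i, G i s ^ γ := by
          rw [Finset.prod_mul_distrib, Finset.prod_const, Finset.card_univ, Fintype.card_fin,
            ← ENNReal.rpow_natCast, ← ENNReal.rpow_mul,
            ENNReal.ofReal_rpow_of_pos (by linarith)]
          congr 3
          ring
  refine h5.trans ?_
  rw [lintegral_const_mul _ (Finset.measurable_prod _ fun i _ => (hGm i).pow_const _)]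
  refine mul_le_mul' le_rfl ?_
  have h6 := marg_le μ γ hγ.le hγn G hGm hGi Finset.univ 0
  simp only [lmarginal_univ] at h6
  refine h6.trans (le_of_eq ?_)
  simp only [hint]
  rfl

/-! ### AVG -/

lemma meas_Qc (n : ℕ) (ρ : ℝ) : MeasurableSet (Qc n ρ) := measurableSet_Icc

lemma vol_Qc (n : ℕ) {ρ : ℝ} (hρ : 0 < ρ) : volume (Qc n ρ) = ENNReal.ofReal ((2 * ρ) ^ n) := by
  unfold Qc
  rw [Real.volume_Icc_pi, Finset.prod_const, Finset.card_univ, Fintype.card_fin,
    ENNReal.ofReal_pow (by linarith)]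
  congr 2
  ring

theorem pf_AVG : T_AVG := by
  intro n ρ ρ' hρ hρρ f hf s0
  have hρ' : 0 < ρ' := lt_of_lt_of_le hρ hρρ
  have key : ENNReal.ofReal ((2 * ρ) ^ n) * ∫⁻ s in Qc n ρ', f (s0 + s) ≤
      ∫⁻ s in Qc n (2 * ρ'), ∫⁻ u in Qc n ρ, f (s0 + s + u) := by
    have hF : Measurable fun y : (Fin n → ℝ) × (Fin n → ℝ) =>
        (Qc n (2 * ρ')).indicator (fun _ => (1 : ℝ≥0∞)) y.1 *
          ((Qc n ρ).indicator (fun _ => (1 : ℝ≥0∞)) (y.2 - y.1) * f (s0 + y.2)) := by
      have h1 : Measurable ((Qc n (2 * ρ')).indicator (fun _ => (1 : ℝ≥0∞))) :=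
        measurable_const.indicator (meas_Qc n _)
      have h2 : Measurable ((Qc n ρ).indicator (fun _ => (1 : ℝ≥0∞))) :=
        measurable_const.indicator (meas_Qc n _)
      exact (h1.comp measurable_fst).mul
        ((h2.comp (measurable_snd.sub measurable_fst)).mul
          (hf.comp (measurable_const.add measurable_snd)))
    have e1 : ∫⁻ s in Qc n (2 * ρ'), ∫⁻ u in Qc n ρ, f (s0 + s + u) =
        ∫⁻ s, ∫⁻ v, (Qc n (2 * ρ')).indicator (fun _ => (1 : ℝ≥0∞)) s *
          ((Qc n ρ).indicator (fun _ => (1 : ℝ≥0∞)) (v - s) * f (s0 + v)) := by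
      rw [← lintegral_indicator (meas_Qc n _)]
      refine lintegral_congr fun s => ?_
      rw [lintegral_const_mul']
      · by_cases hs : s ∈ Qc n (2 * ρ')
        · rw [Set.indicator_of_mem hs, Set.indicator_of_mem hs, one_mul,
            ← lintegral_indicator (meas_Qc n _)]
          rw [← lintegral_sub_right_eq_self (fun u => (Qc n ρ).indicator
            (fun u => f (s0 + s + u)) u) s]
          refine lintegral_congr fun v => ?_
          by_cases hv : v - s ∈ Qc n ρ
          · rw [Set.indicator_of_mem hv, Set.indicator_of_mem hv, one_mul]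
            congr 1
            abel
          · rw [Set.indicator_of_notMem hv, Set.indicator_of_notMem hv, zero_mul]
        · rw [Set.indicator_of_notMem hs, Set.indicator_of_notMem hs, zero_mul]
      · by_cases hs : s ∈ Qc n (2 * ρ')
        · rw [Set.indicator_of_mem hs]
          exact ENNReal.one_ne_top
        · rw [Set.indicator_of_notMem hs]
          exact ENNReal.zero_ne_top
    rw [e1, lintegral_lintegral_swap hF.aemeasurable, ← lintegral_indicator (meas_Qc n _),
      ← lintegral_const_mul' _ _ ENNReal.ofReal_ne_top]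
    refine lintegral_mono fun v => ?_
    by_cases hv : v ∈ Qc n ρ'
    · rw [Set.indicator_of_mem hv]
      have e2 : ENNReal.ofReal ((2 * ρ) ^ n) =
          ∫⁻ s, (Qc n ρ).indicator (fun _ => (1 : ℝ≥0∞)) (v - s) := by
        rw [lintegral_sub_left_eq_self (fun s => (Qc n ρ).indicator (fun _ => (1 : ℝ≥0∞)) s) v,
          lintegral_indicator (meas_Qc n _), lintegral_const, Measure.restrict_apply_univ,
          vol_Qc n hρ, one_mul]
      rw [e2]
      have h2 : Measurable ((Qc n ρ).indicator (fun _ => (1 : ℝ≥0∞))) :=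
        measurable_const.indicator (meas_Qc n _)
      have h6 : Measurable fun s : Fin n → ℝ =>
          (Qc n ρ).indicator (fun _ => (1 : ℝ≥0∞)) (v - s) :=
        h2.comp (measurable_const.sub measurable_id)
      rw [← lintegral_mul_const _ h6]
      refine lintegral_mono fun s => ?_
      by_cases hs : v - s ∈ Qc n ρ
      · have hs' : s ∈ Qc n (2 * ρ') := by
          constructor
          · intro i
            have h3 := hs.2 i
            have h4 := hv.1 i
            simp only [Pi.sub_apply] at h3 h4 ⊢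
            linarith
          · intro i
            have h3 := hs.1 i
            have h4 := hv.2 i
            simp only [Pi.sub_apply] at h3 h4 ⊢
            linarith
        simp only [Set.indicator_of_mem hs, Set.indicator_of_mem hs', one_mul, le_refl]
      · simp only [Set.indicator_of_notMem hs, zero_mul, mul_zero, le_refl]
    · rw [Set.indicator_of_notMem hv, mul_zero]
      exact bot_le
  unfold av
  have hc1 : ENNReal.ofReal ((2 * ρ) ^ n) ≠ 0 := (ENNReal.ofReal_pos.mpr (by positivity)).ne'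
  have hc2 : ENNReal.ofReal ((2 * ρ) ^ n) ≠ ∞ := ENNReal.ofReal_ne_top
  have e3 : (ENNReal.ofReal ((2 * ρ') ^ n))⁻¹ =
      2 ^ n * (ENNReal.ofReal ((2 * (2 * ρ')) ^ n))⁻¹ := by
    have : (2 * (2 * ρ')) ^ n = 2 ^ n * (2 * ρ') ^ n := by rw [← mul_pow]
    rw [this, ENNReal.ofReal_mul (by positivity), ENNReal.mul_inv (Or.inr ENNReal.ofReal_ne_top)
      (Or.inl ENNReal.ofReal_ne_top), ← mul_assoc]
    have e4 : ENNReal.ofReal (2 ^ n) = 2 ^ n := by
      rw [ENNReal.ofReal_pow (by norm_num)]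
      simp
    rw [e4, ENNReal.mul_inv_cancel (by simp) (by simp), one_mul]
  rw [e3, mul_assoc]
  refine mul_le_mul' le_rfl (mul_le_mul' le_rfl ?_)
  rw [lintegral_const_mul' _ _ (ENNReal.inv_ne_top.mpr hc1)]
  calc ∫⁻ s in Qc n ρ', f (s0 + s)
      = (ENNReal.ofReal ((2 * ρ) ^ n))⁻¹ *
          (ENNReal.ofReal ((2 * ρ) ^ n) * ∫⁻ s in Qc n ρ', f (s0 + s)) := by
        rw [← mul_assoc, ENNReal.inv_mul_cancel hc1 hc2, one_mul]
    _ ≤ _ := mul_le_mul' le_rfl key

/-! ### CHN -/

lemma av_mono {n : ℕ} {ρ : ℝ} {f g : (Fin n → ℝ) → ℝ≥0∞} (h : ∀ s, f s ≤ g s) (s0 : Fin n → ℝ) :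
    av n ρ f s0 ≤ av n ρ g s0 := by
  unfold av
  exact mul_le_mul' le_rfl (lintegral_mono fun s => h _)

lemma av_const_mul {n : ℕ} {ρ : ℝ} {f : (Fin n → ℝ) → ℝ≥0∞} (c : ℝ≥0∞) (hc : c ≠ ∞)
    (s0 : Fin n → ℝ) : av n ρ (fun s => c * f s) s0 = c * av n ρ f s0 := by
  unfold av
  rw [lintegral_const_mul' _ _ hc]
  ring

lemma av_double {n : ℕ} {ρ : ℝ} (hρ : 0 < ρ) (f : (Fin n → ℝ) → ℝ≥0∞) (s0 : Fin n → ℝ) :
    av n ρ f s0 ≤ 2 ^ n * av n (2 * ρ) f s0 := by
  unfold av
  have e3 : (ENNReal.ofReal ((2 * ρ) ^ n))⁻¹ =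
      2 ^ n * (ENNReal.ofReal ((2 * (2 * ρ)) ^ n))⁻¹ := by
    have : (2 * (2 * ρ)) ^ n = 2 ^ n * (2 * ρ) ^ n := by rw [← mul_pow]
    rw [this, ENNReal.ofReal_mul (by positivity), ENNReal.mul_inv (Or.inr ENNReal.ofReal_ne_top)
      (Or.inl ENNReal.ofReal_ne_top), ← mul_assoc]
    have e4 : ENNReal.ofReal (2 ^ n) = 2 ^ n := by
      rw [ENNReal.ofReal_pow (by norm_num)]
      simp
    rw [e4, ENNReal.mul_inv_cancel (by simp) (by simp), one_mul]
  rw [e3, mul_assoc]
  refine mul_le_mul' le_rfl (mul_le_mul' le_rfl (lintegral_mono_set ?_))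
  intro s hs
  constructor
  · intro i
    have := hs.1 i
    simp only at this ⊢
    linarith
  · intro i
    have := hs.2 i
    simp only at this ⊢
    linarith

theorem pf_CHN (hONE : T_ONE) (hAVG : T_AVG) : T_CHN := by
  intro n hn γ hγ hγn C hC
  have hC0 : 0 < C := by linarith
  have hnγ : 0 ≤ (n : ℝ) * γ := by positivity
  have hCn : 1 ≤ C ^ ((n : ℝ) * γ) := Real.one_le_rpow hC hnγ
  set D : ℝ := 2 ^ n * (C ^ ((n : ℝ) * γ) * C ^ ((n : ℝ) * γ)) with hD
  have hD1 : 1 ≤ D := by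
    have h1 : (1 : ℝ) ≤ 2 ^ n := one_le_pow₀ (by norm_num)
    have h2 : 1 ≤ C ^ ((n : ℝ) * γ) * C ^ ((n : ℝ) * γ) := by nlinarith
    nlinarith
  have hDe : ENNReal.ofReal D = 2 ^ n * (ENNReal.ofReal (C ^ ((n : ℝ) * γ)) *
      ENNReal.ofReal (C ^ ((n : ℝ) * γ))) := by
    rw [hD, ENNReal.ofReal_mul (by positivity), ENNReal.ofReal_mul (by positivity)]
    congr 1
    rw [ENNReal.ofReal_pow (by norm_num)]
    simp
  refine ⟨D, hD1, fun J R hJ hR0 hRm V hV hVa hVb => ?_⟩
  have hRpos : ∀ j, 0 < R j := by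
    intro j
    induction j with
    | zero => exact hR0
    | succ j ih => exact lt_of_lt_of_le ih (hRm j)
  -- one scale
  have hstep : ∀ j < J, ∀ s0, av n (2 * R (j + 1)) (fun s => ∏ i, V j i s ^ γ) s0 ≤
      ENNReal.ofReal (C ^ ((n : ℝ) * γ)) * ENNReal.ofReal (C ^ ((n : ℝ) * γ)) *
        ∏ i, V (j + 1) i s0 ^ γ := by
    intro j hj s0
    have h1 := hONE n hn γ hγ hγn C hC (2 * R (j + 1)) (by have := hRpos (j + 1); linarith) (V j)
      (hV j) (fun i s t ht => hVa j hj i s t (by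
        refine ht.trans (le_of_eq ?_)
        ring)) s0
    refine h1.trans ?_
    rw [mul_assoc]
    refine mul_le_mul' le_rfl ?_
    calc ∏ i, av n (2 * R (j + 1)) (V j i) s0 ^ γ
        ≤ ∏ i, (ENNReal.ofReal C ^ γ * V (j + 1) i s0 ^ γ) := by
          refine Finset.prod_le_prod' fun i _ => ?_
          rw [← ENNReal.mul_rpow_of_nonneg _ _ hγ.le]
          exact ENNReal.rpow_le_rpow (hVb j hj i s0) hγ.le
      _ = ENNReal.ofReal (C ^ ((n : ℝ) * γ)) * ∏ i, V (j + 1) i s0 ^ γ := by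
          rw [Finset.prod_mul_distrib, Finset.prod_const, Finset.card_univ, Fintype.card_fin,
            ← ENNReal.rpow_natCast, ← ENNReal.rpow_mul, ENNReal.ofReal_rpow_of_pos hC0]
          congr 3
          ring
  have hmain : ∀ j, j + 1 ≤ J → ∀ s0, av n (R (j + 1)) (fun s => ∏ i, V 0 i s ^ γ) s0 ≤
      ENNReal.ofReal (D ^ (j + 1)) * ∏ i, V (j + 1) i s0 ^ γ := by
    intro j
    induction j with
    | zero =>
      intro hj s0
      refine (av_double (hRpos 1) _ s0).trans ?_
      refine (mul_le_mul' le_rfl (hstep 0 (by omega) s0)).trans (le_of_eq ?_)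
      rw [zero_add, pow_one, hDe]
      ring
    | succ j ih =>
      intro hj s0
      have hmeas : Measurable fun s => ∏ i, V 0 i s ^ γ :=
        Finset.measurable_prod _ fun i _ => (hV 0 i).pow_const _
      have h1 := hAVG n (R (j + 1)) (R (j + 1 + 1)) (hRpos (j + 1)) (hRm (j + 1))
        (fun s => ∏ i, V 0 i s ^ γ) hmeas s0
      refine h1.trans ?_
      have h2 : av n (2 * R (j + 1 + 1)) (fun s => av n (R (j + 1))
          (fun s => ∏ i, V 0 i s ^ γ) s) s0 ≤
          ENNReal.ofReal (D ^ (j + 1)) * av n (2 * R (j + 1 + 1))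
            (fun s => ∏ i, V (j + 1) i s ^ γ) s0 := by
        rw [← av_const_mul _ ENNReal.ofReal_ne_top]
        exact av_mono (fun s => ih (by omega) s) s0
      refine (mul_le_mul' le_rfl (h2.trans (mul_le_mul' le_rfl
        (hstep (j + 1) (by omega) s0)))).trans (le_of_eq ?_)
      rw [pow_succ D (j + 1), ENNReal.ofReal_mul (by positivity), hDe]
      ring
  intro s0
  obtain ⟨j, hj⟩ : ∃ j, J = j + 1 := ⟨J - 1, by omega⟩
  rw [hj]
  exact hmain j (by omega) s0

end Pool.Agent.H96.BD
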