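import Pool.Agent.H96.BD.Grid

/-!
# Module TRV of the board `bdc_modules`
-/

set_option autoImplicit false

open MeasureTheory
open scoped ENNReal NNReal

namespace Pool.Agent.H96.BD

open Pool.Agent.H93.BD

lemma nrm_eq {m : ℕ} (p : ℝ) (f : X m → ℂ) : nrm p f = eLpNorm' f p volume := rfl

lemma card_Bx (m a : ℕ) : (Bx m a).card = 2 ^ (a * m) := by
  unfold Bx
  rw [Fintype.card_piFinset]
  simp only [Int.card_Ico, sub_zero]
  rw [Finset.prod_const, Finset.card_univ, Fintype.card_fin, pow_mul]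
  congr 1

/-- Cauchy-Schwarz -/
lemma sum_le_l2 {ι : Type} (s : Finset ι) (u : ι → ℝ≥0∞) :
    ∑ i ∈ s, u i ≤ (s.card : ℝ≥0∞) ^ (1 / 2 : ℝ) * l2 s u := by
  have h := ENNReal.inner_le_Lp_mul_Lq s (fun _ => (1 : ℝ≥0∞)) u Real.HolderConjugate.two_two
  simpa [l2] using h

theorem pf_TRV (hFCT : T_FCT) : T_TRV := by
  intro m p C0 hp a g hg
  have h1 : nrm p (fun x => ∑ κ ∈ Bx m a, FI (g κ) x) ≤ ∑ κ ∈ Bx m a, nrm p (FI (g κ)) := by
    simp only [nrm_eq]
    have h := eLpNorm'_sum_le (μ := (volume : Measure (X m))) (f := fun κ => FI (g κ))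
      (s := Bx m a) (q := p) (fun κ hκ =>
        (hFCT m (g κ) (hg κ hκ).int).1.aestronglyMeasurable) hp
    refine le_trans (le_of_eq ?_) h
    congr 1
    funext x
    rw [Finset.sum_apply]
  refine h1.trans ((sum_le_l2 _ _).trans (le_of_eq ?_))
  congr 1
  rw [card_Bx, ← ENNReal.ofReal_rpow_of_pos (by norm_num : (0 : ℝ) < 2)]
  have h2 : ENNReal.ofReal 2 = 2 := by simp
  rw [h2]
  push_cast
  rw [← ENNReal.rpow_natCast, ← ENNReal.rpow_mul]
  congr 1
  push_cast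
  ring

end Pool.Agent.H96.BD
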